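import Pool.Agent.H32.RK.TargetsA

/-!
# The sum of the squares of the indices
-/

open Finset NumberField Pool.Agent.H32.RQ Pool.Agent.H32.RK

namespace Pool.Agent.H60.RK

open Classical in
theorem card_fib {R : Type} [CommRing R] [Fintype R] (s : ℕ) (x : Fin s → R) (hx : Prm x)
    (I : Ideal R) :
    ((univ.filter fun y : Fin s → R => gi x y = I).card : ℝ) ≤
      (Nat.card (R ⧸ I) : ℝ) * ((Nat.card R : ℝ) / (Nat.card (R ⧸ I) : ℝ)) ^ s := by
  obtain ⟨a, ha⟩ := hx
  have hq : (Nat.card R) = Nat.card I * Nat.card (R ⧸ I) := by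
    rw [mul_comm]
    exact AddSubgroup.card_eq_card_quotient_mul_card_addSubgroup I.toAddSubgroup
  have hpos : (0 : ℝ) < (Nat.card (R ⧸ I) : ℝ) := by
    have : 0 < Nat.card (R ⧸ I) := Nat.card_pos
    exact_mod_cast this
  have hdiv : (Nat.card R : ℝ) / (Nat.card (R ⧸ I) : ℝ) = (Nat.card I : ℝ) := by
    rw [hq]
    push_cast
    field_simp
  rw [hdiv]
  have hsub : (univ.filter fun y : Fin s → R => gi x y = I) ⊆
      (univ : Finset ((R ⧸ I) × (Fin s → I))).image fun q j => q.1.out * x j + (q.2 j : R) := by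
    intro y hy
    have hy2 : gi x y = I := (mem_filter.1 hy).2
    have hmem : ∀ j, y j - (∑ i, a i * y i) * x j ∈ I := by
      intro j
      have h1 : y j - (∑ i, a i * y i) * x j = ∑ i, a i * mnr x y i j := by
        have h2 : y j = (∑ i, a i * x i) * y j := by rw [ha, one_mul]
        rw [h2, Finset.sum_mul, Finset.sum_mul, ← Finset.sum_sub_distrib]
        apply Finset.sum_congr rfl
        intro i _
        unfold mnr
        ring
      rw [h1, ← hy2]
      apply Ideal.sum_mem
      intro i _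
      exact Ideal.mul_mem_left _ _ (Ideal.subset_span ⟨(i, j), rfl⟩)
    rw [mem_image]
    have hout : ∀ c : R, c - (Ideal.Quotient.mk I c).out ∈ I := by
      intro c
      apply Ideal.Quotient.eq.1
      exact (Quotient.out_eq' (Ideal.Quotient.mk I c)).symm
    set c := ∑ i, a i * y i with hc
    refine ⟨(Ideal.Quotient.mk I c, fun j => ⟨y j - (Ideal.Quotient.mk I c).out * x j, ?_⟩),
      mem_univ _, ?_⟩
    · have h3 : y j - (Ideal.Quotient.mk I c).out * x j =
          (y j - c * x j) + x j * (c - (Ideal.Quotient.mk I c).out) := by ring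
      rw [h3]
      exact I.add_mem (hmem j) (I.mul_mem_left _ (hout c))
    · funext j
      simp
  have h4 := (card_le_card hsub).trans card_image_le
  rw [card_univ, Fintype.card_prod, Fintype.card_fun, Fintype.card_fin] at h4
  have h5 : ((univ.filter fun y : Fin s → R => gi x y = I).card : ℝ) ≤
      ((Fintype.card (R ⧸ I) * Fintype.card I ^ s : ℕ) : ℝ) := by exact_mod_cast h4
  refine h5.trans (le_of_eq ?_)
  rw [Nat.card_eq_fintype_card, Nat.card_eq_fintype_card]
  push_cast
  rfl

open Classical in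
theorem pf_AQB : T_AQB := by
  intro R _ _ s x J hx hJ
  rw [← Finset.sum_fiberwise_of_maps_to (s := univ.filter fun y : Fin s → R => Prm y)
    (t := J) (g := fun y => gi x y) (fun y _ => hJ _)
    (fun y => (Nat.card (R ⧸ gi x y) : ℝ) ^ 2), Finset.mul_sum]
  apply Finset.sum_le_sum
  intro I _
  have hpos : (0 : ℝ) < (Nat.card (R ⧸ I) : ℝ) := by
    have : 0 < Nat.card (R ⧸ I) := Nat.card_pos
    exact_mod_cast this
  calc ∑ y ∈ (univ.filter fun y : Fin s → R => Prm y).filter (fun y => gi x y = I),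
        (Nat.card (R ⧸ gi x y) : ℝ) ^ 2
      = ∑ y ∈ (univ.filter fun y : Fin s → R => Prm y).filter (fun y => gi x y = I),
        (Nat.card (R ⧸ I) : ℝ) ^ 2 := by
        apply Finset.sum_congr rfl
        intro y hy
        rw [(mem_filter.1 hy).2]
    _ = (((univ.filter fun y : Fin s → R => Prm y).filter (fun y => gi x y = I)).card : ℝ) *
        (Nat.card (R ⧸ I) : ℝ) ^ 2 := by rw [Finset.sum_const, nsmul_eq_mul]
    _ ≤ ((univ.filter fun y : Fin s → R => gi x y = I).card : ℝ) *
        (Nat.card (R ⧸ I) : ℝ) ^ 2 := by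
        apply mul_le_mul_of_nonneg_right _ (by positivity)
        have h1 : ((univ.filter fun y : Fin s → R => Prm y).filter (fun y => gi x y = I)) ⊆
            univ.filter fun y : Fin s → R => gi x y = I := by
          intro y hy
          exact mem_filter.2 ⟨mem_univ _, (mem_filter.1 hy).2⟩
        exact_mod_cast card_le_card h1
    _ ≤ ((Nat.card (R ⧸ I) : ℝ) * ((Nat.card R : ℝ) / (Nat.card (R ⧸ I) : ℝ)) ^ s) *
        (Nat.card (R ⧸ I) : ℝ) ^ 2 :=
        mul_le_mul_of_nonneg_right (card_fib s x hx I) (by positivity)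
    _ = (Nat.card R : ℝ) ^ s *
        ((Nat.card (R ⧸ I) : ℝ) ^ 3 / (Nat.card (R ⧸ I) : ℝ) ^ s) := by
        rw [div_pow]
        field_simp

end Pool.Agent.H60.RK
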