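import Pool.Agent.H32.RK.TargetsA

/-!
# Division modulo prime powers
-/

open Finset NumberField Pool.Agent.H32.RQ Pool.Agent.H32.RK

namespace Pool.Agent.H60.RK

theorem pf_DVP (K : Type) [Field K] [NumberField K] : T_DVP K := by
  intro p τ n M φ hp hbot hM hM2 hτ hφ
  obtain ⟨a, ha⟩ := Ideal.dvd_iff_le.2 (Ideal.span_singleton_le_iff_mem (p ^ τ) |>.2 hM)
  have hmax : p.IsMaximal := hp.isMaximal hbot
  have hna : ¬ a ≤ p := by
    intro h
    apply hM2
    have h1 : Ideal.span {M} ≤ p ^ (τ + 1) := by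
      rw [ha, pow_succ]
      exact Ideal.mul_mono le_rfl h
    exact h1 (Ideal.mem_span_singleton_self M)
  have hsup : a ⊔ p = ⊤ := by
    by_contra h
    have h1 := hmax.eq_of_le h le_sup_right
    apply hna
    rw [h1]
    exact le_sup_left
  have key : p ^ n = Ideal.span {M} * p ^ (n - τ) ⊔ p ^ (n + 1) := by
    calc p ^ n = p ^ n * (a ⊔ p) := by rw [hsup, Ideal.mul_top]
      _ = p ^ n * a ⊔ p ^ n * p := Ideal.mul_sup _ _ _
      _ = Ideal.span {M} * p ^ (n - τ) ⊔ p ^ (n + 1) := by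
        have h1 : p ^ n = p ^ τ * p ^ (n - τ) := by rw [← pow_add, Nat.add_sub_cancel' hτ]
        rw [← pow_succ, ha]
        congr 1
        rw [h1]
        ring
  rw [key] at hφ
  obtain ⟨u, hu, r, hr, hur⟩ := Submodule.mem_sup.1 hφ
  obtain ⟨z, hz, hzu⟩ := Ideal.mem_span_singleton_mul.1 hu
  refine ⟨z, hz, ?_⟩
  rw [hzu, ← hur]
  have h2 : u - (u + r) = -r := by ring
  rw [h2]
  exact neg_mem hr

end Pool.Agent.H60.RK
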